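import Pool.Agent.WAQ.StmtsT

/-!
# Squad WAQ (MP_ff4683_nt), row GDF: local fields and the real numbers are good
-/

set_option autoImplicit false

namespace Pool.Agent.WAQ.H70

open Pool.Agent.WAQ

variable [Par]

theorem good_loc (F : Type) [NormedField F] (ϖ : ℤ) (h : IsLoc F ϖ) : GoodF F := by
  have h2 : (2 : F) ≠ 0 := h.two_ne
  have h4 : (4 : F) ≠ 0 := by
    have : (4 : F) = 2 * 2 := by norm_num
    rw [this]; exact mul_ne_zero h2 h2
  refine ⟨fun a ha => h.am_ne ha, ⟨am F ϖ, h.uni, (h.lt_one ϖ).2 dvd_rfl⟩, ?_⟩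
  intro ε hε
  have h2' : 0 < ‖(2 : F)‖ := norm_pos_iff.2 h2
  refine ⟨min ‖(4 : F)‖ (ε * ‖(2 : F)‖), lt_min (norm_pos_iff.2 h4) (mul_pos hε h2'), ?_⟩
  intro x hx
  obtain ⟨r, hr, hr2⟩ := h.sqrt x (lt_of_lt_of_le hx (min_le_left _ _))
  refine ⟨r, hr, ?_⟩
  have h5 : ‖r - 1‖ * ‖(2 : F)‖ < ε * ‖(2 : F)‖ :=
    lt_of_le_of_lt hr2 (lt_of_lt_of_le hx (min_le_right _ _))
  exact lt_of_mul_lt_mul_right h5 h2'.le

theorem good_re (F : Type) [NormedField F] (h : IsRe F) : GoodF F := by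
  have hc := h.charZero
  obtain ⟨σ, hσ⟩ := h
  refine ⟨?_, ⟨σ.symm (1 / 2), ?_, ?_⟩, ?_⟩
  · intro a ha
    rw [am_apply]
    exact Int.cast_ne_zero.2 ha
  · rw [← hσ]
    simp
  · rw [← hσ]
    simp
    norm_num
  · intro ε hε
    refine ⟨min (1 / 2) ε, lt_min (by norm_num) hε, fun x hx => ?_⟩
    have h1 : |σ x - 1| < min (1 / 2) ε := by
      have : σ x - 1 = σ (x - 1) := by simp
      rw [this, ← Real.norm_eq_abs, hσ]; exact hx
    have h2 : |σ x - 1| < 1 / 2 := lt_of_lt_of_le h1 (min_le_left _ _)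
    have h3 : |σ x - 1| < ε := lt_of_lt_of_le h1 (min_le_right _ _)
    have h4 : 0 ≤ σ x := by
      have := (abs_lt.1 h2).1
      linarith
    have hs0 : 0 ≤ Real.sqrt (σ x) := Real.sqrt_nonneg _
    have hs : Real.sqrt (σ x) ^ 2 = σ x := Real.sq_sqrt h4
    refine ⟨σ.symm (Real.sqrt (σ x)), ?_, ?_⟩
    · apply σ.injective
      rw [map_pow, RingEquiv.apply_symm_apply, hs]
    · rw [← hσ]
      have e : σ (σ.symm (Real.sqrt (σ x)) - 1) = Real.sqrt (σ x) - 1 := by simp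
      rw [e, Real.norm_eq_abs]
      have h5 : |Real.sqrt (σ x) - 1| * (Real.sqrt (σ x) + 1) = |σ x - 1| := by
        have e1 : σ x - 1 = (Real.sqrt (σ x) - 1) * (Real.sqrt (σ x) + 1) := by
          linear_combination -hs
        rw [e1, abs_mul, abs_of_nonneg (by linarith : 0 ≤ Real.sqrt (σ x) + 1)]
      have h6 : 0 ≤ |Real.sqrt (σ x) - 1| := abs_nonneg _
      nlinarith

/-- Row GDF. -/
theorem gdf : GdfStmt := by
  intro F _ h
  rcases h with ⟨ϖ, h⟩ | h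
  · exact good_loc F ϖ h
  · exact good_re F h

end Pool.Agent.WAQ.H70

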